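import Mathlib

set_option autoImplicit false

namespace Pool.Agent.Lib.MP_1a49c3_al

open Matrix Polynomial

section comm
variable {R : Type*} [CommRing R]

/-- The sum of the three principal `2 × 2` minors. -/
def e2 (M : Matrix (Fin 3) (Fin 3) R) : R :=
  (M 0 0 * M 1 1 - M 0 1 * M 1 0) + (M 0 0 * M 2 2 - M 0 2 * M 2 0)
    + (M 1 1 * M 2 2 - M 1 2 * M 2 1)

/-- The discriminant of the characteristic polynomial. -/
def disc3 (M : Matrix (Fin 3) (Fin 3) R) : R :=
  M.trace ^ 2 * e2 M ^ 2 - 4 * e2 M ^ 3 - 4 * M.trace ^ 3 * M.det - 27 * M.det ^ 2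
    + 18 * M.trace * e2 M * M.det

theorem charpoly3 (M : Matrix (Fin 3) (Fin 3) R) :
    M.charpoly = X ^ 3 - C M.trace * X ^ 2 + C (e2 M) * X - C M.det := by
  rw [Matrix.charpoly, Matrix.det_fin_three, Matrix.det_fin_three, Matrix.trace_fin_three, e2]
  simp only [Matrix.charmatrix_apply, Matrix.diagonal_apply]
  simp
  ring

theorem charpoly_coeff_one (M : Matrix (Fin 3) (Fin 3) R) : M.charpoly.coeff 1 = e2 M := by
  rw [charpoly3]
  simp [coeff_X, coeff_C]

theorem map_e2 {S : Type*} [CommRing S] (f : R →+* S) (M : Matrix (Fin 3) (Fin 3) R) :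
    e2 (f.mapMatrix M) = f (e2 M) := by
  simp [e2]

theorem map_disc3 {S : Type*} [CommRing S] (f : R →+* S) (M : Matrix (Fin 3) (Fin 3) R) :
    disc3 (f.mapMatrix M) = f (disc3 M) := by
  have ht : (f.mapMatrix M).trace = f M.trace := by
    simp [Matrix.trace]
  rw [disc3, disc3, map_e2, ht, ← RingHom.map_det]
  simp only [map_sub, map_add, map_mul, map_pow, map_ofNat]

theorem disc3_diagonal (d : Fin 3 → R) :
    disc3 (diagonal d) = ((d 0 - d 1) * (d 0 - d 2) * (d 1 - d 2)) ^ 2 := by
  simp only [disc3, e2, Matrix.trace_fin_three, Matrix.det_fin_three]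
  simp
  ring

end comm

section field
variable {K : Type*} [Field K]

theorem exists_diagonalization [IsAlgClosed K] (M : Matrix (Fin 3) (Fin 3) K) (hM : disc3 M ≠ 0) :
    ∃ (P Q : Matrix (Fin 3) (Fin 3) K) (d : Fin 3 → K), P * Q = 1 ∧ M = P * diagonal d * Q ∧
      Function.Injective d := by
  classical
  have hmonic : M.charpoly.Monic := M.charpoly_monic
  have hsplit := IsAlgClosed.splits M.charpoly
  have hcard : M.charpoly.roots.card = 3 := by
    rw [← hsplit.natDegree_eq_card_roots, Matrix.charpoly_natDegree_eq_dim]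
    simp
  obtain ⟨a, b, c, habc⟩ := Multiset.card_eq_three.1 hcard
  have hprod := hsplit.eq_prod_roots_of_monic hmonic
  rw [habc] at hprod
  simp at hprod
  have h3 := charpoly3 M
  have hexp : (X - C a) * ((X - C b) * (X - C c)) =
      X ^ 3 - C (a + b + c) * X ^ 2 + C (a * b + a * c + b * c) * X - C (a * b * c) := by
    simp only [C_add, C_mul]
    ring
  have heq : X ^ 3 - C M.trace * X ^ 2 + C (e2 M) * X - C M.det =
      X ^ 3 - C (a + b + c) * X ^ 2 + C (a * b + a * c + b * c) * X - C (a * b * c) := by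
    rw [← h3, ← hexp, hprod]
  have hc2 : ∀ s t u : K, (X ^ 3 - C s * X ^ 2 + C t * X - C u : K[X]).coeff 2 = -s := by
    intro s t u; simp [coeff_X, coeff_C]
  have hc1 : ∀ s t u : K, (X ^ 3 - C s * X ^ 2 + C t * X - C u : K[X]).coeff 1 = t := by
    intro s t u; simp [coeff_C]
  have hc0 : ∀ s t u : K, (X ^ 3 - C s * X ^ 2 + C t * X - C u : K[X]).coeff 0 = -u := by
    intro s t u; simp
  have htr : M.trace = a + b + c := by
    have := congrArg (fun p => coeff p 2) heq
    simp only [hc2] at this
    exact neg_injective this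
  have he2 : e2 M = a * b + a * c + b * c := by
    have := congrArg (fun p => coeff p 1) heq
    simp only [hc1] at this
    exact this
  have hdet : M.det = a * b * c := by
    have := congrArg (fun p => coeff p 0) heq
    simp only [hc0] at this
    exact neg_injective this
  have hdisc : disc3 M = ((a - b) * (a - c) * (b - c)) ^ 2 := by
    rw [disc3, htr, he2, hdet]; ring
  rw [hdisc] at hM
  have hne : (a - b) ≠ 0 ∧ (a - c) ≠ 0 ∧ (b - c) ≠ 0 := by
    refine ⟨?_, ?_, ?_⟩ <;> intro h <;> apply hM <;> rw [h] <;> ring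
  let d : Fin 3 → K := ![a, b, c]
  have hd : Function.Injective d := by
    intro i j hij
    obtain ⟨h1, h2, h3⟩ := hne
    rw [sub_ne_zero] at h1 h2 h3
    fin_cases i <;> fin_cases j <;> simp [d] at hij ⊢ <;> first | exact h1 hij | exact h2 hij | exact h3 hij | exact h1 hij.symm | exact h2 hij.symm | exact h3 hij.symm
  have hroot : ∀ i, ∃ v : Fin 3 → K, v ≠ 0 ∧ M *ᵥ v = d i • v := by
    intro i
    have h0 : (Matrix.scalar (Fin 3) (d i) - M).det = 0 := by
      rw [← Matrix.eval_charpoly, hprod]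
      fin_cases i <;> simp [d]
    obtain ⟨v, hv, hv0⟩ := Matrix.exists_mulVec_eq_zero_iff.2 h0
    refine ⟨v, hv, ?_⟩
    rw [Matrix.sub_mulVec, sub_eq_zero] at hv0
    rw [← hv0]
    simp [Matrix.scalar_apply]
  choose v hv0 hv using hroot
  have hli : LinearIndependent K v := by
    refine Module.End.eigenvectors_linearIndependent' (Matrix.toLin' M) d hd v ?_
    intro i
    refine ⟨?_, hv0 i⟩
    rw [Module.End.mem_eigenspace_iff, Matrix.toLin'_apply]
    exact hv i
  let P : Matrix (Fin 3) (Fin 3) K := Matrix.of fun i j => v j i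
  have hPcol : P.col = v := by
    ext i j; rfl
  have hPunit : IsUnit P := by
    rw [← Matrix.linearIndependent_cols_iff_isUnit, hPcol]
    exact hli
  have hdetu : IsUnit P.det := (Matrix.isUnit_iff_isUnit_det P).1 hPunit
  refine ⟨P, P⁻¹, d, Matrix.mul_nonsing_inv P hdetu, ?_, hd⟩
  have hMP : M * P = P * diagonal d := by
    ext i j
    rw [Matrix.mul_diagonal]
    have := congrFun (hv j) i
    simp only [Matrix.mulVec, dotProduct, Pi.smul_apply, smul_eq_mul] at this
    rw [Matrix.mul_apply]
    simp only [P, Matrix.of_apply]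
    rw [this]; ring
  rw [← hMP, Matrix.mul_assoc, Matrix.mul_nonsing_inv P hdetu, Matrix.mul_one]

/-- Polynomials vanishing wherever a nonzero polynomial does not vanish are zero. -/
theorem poly_zero_of_ne [Infinite K] (p q : K[X]) (hq : q ≠ 0)
    (h : ∀ t, q.eval t ≠ 0 → p.eval t = 0) : p = 0 := by
  have : q * p = 0 := by
    apply Polynomial.funext
    intro t
    by_cases ht : q.eval t = 0
    · simp [ht]
    · simp [h t ht]
  exact (mul_eq_zero.1 this).resolve_left hq

end field

end Pool.Agent.Lib.MP_1a49c3_al
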