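import Pool.Agent.Lib.MP_1a49c3_al.Formanek
import Pool.Agent.Lib.MP_1a49c3_al.Diag

set_option autoImplicit false

namespace Pool.Agent.Lib.MP_1a49c3_al

open Matrix Polynomial

variable {K : Type*} [Field K]

/-- evaluation of a polynomial matrix at a point -/
noncomputable def evM (t : K) : Matrix (Fin 3) (Fin 3) K[X] →+* Matrix (Fin 3) (Fin 3) K :=
  (Polynomial.evalRingHom t).mapMatrix

/-- constant polynomial matrix -/
noncomputable def cM : Matrix (Fin 3) (Fin 3) K →+* Matrix (Fin 3) (Fin 3) K[X] :=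
  (Polynomial.C).mapMatrix

theorem evM_apply (t : K) (M : Matrix (Fin 3) (Fin 3) K[X]) (i j : Fin 3) :
    evM t M i j = (M i j).eval t := by
  simp [evM]

theorem evM_cM (t : K) (M : Matrix (Fin 3) (Fin 3) K) : evM t (cM M) = M := by
  ext i j
  simp [evM, cM]

/-- The line from `x` (at `t = 0`) to `y` (at `t = 1`). -/
noncomputable def lineM (x y : Matrix (Fin 3) (Fin 3) K) : Matrix (Fin 3) (Fin 3) K[X] :=
  cM x + (X : K[X]) • cM (y - x)

theorem evM_lineM (t : K) (x y : Matrix (Fin 3) (Fin 3) K) :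
    evM t (lineM x y) = x + t • (y - x) := by
  ext i j
  simp [evM_apply, lineM, cM]

theorem evM_smul (t : K) (p : K[X]) (M : Matrix (Fin 3) (Fin 3) K[X]) :
    evM t (p • M) = (p.eval t) • evM t M := by
  ext i j
  simp [evM_apply]

theorem exists_inj3 [Infinite K] : ∃ d : Fin 3 → K, Function.Injective d := by
  let f := Infinite.natEmbedding K
  exact ⟨fun i => f i, fun i j h => Fin.ext (f.injective h)⟩

theorem F_central [IsAlgClosed K] (x y₁ y₂ y₃ : Matrix (Fin 3) (Fin 3) K) :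
    F x y₁ y₂ y₃ = (F x y₁ y₂ y₃ 0 0) • (1 : Matrix (Fin 3) (Fin 3) K) := by
  haveI : Infinite K := IsAlgClosed.instInfinite
  obtain ⟨d, hd⟩ := exists_inj3 (K := K)
  set L := lineM x (diagonal d) with hL
  have hq : disc3 L ≠ 0 := by
    intro h
    have h1 : disc3 (evM 1 L) = 0 := by
      rw [evM, map_disc3, h]; simp
    rw [hL, evM_lineM] at h1
    simp only [one_smul, add_sub_cancel] at h1
    rw [disc3_diagonal] at h1
    have h01 : d 0 - d 1 ≠ 0 := sub_ne_zero.2 (hd.ne (by decide))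
    have h02 : d 0 - d 2 ≠ 0 := sub_ne_zero.2 (hd.ne (by decide))
    have h12 : d 1 - d 2 ≠ 0 := sub_ne_zero.2 (hd.ne (by decide))
    exact (pow_ne_zero 2 (mul_ne_zero (mul_ne_zero h01 h02) h12)) h1
  have hzero : ∀ i l, F L (cM y₁) (cM y₂) (cM y₃) i l -
      (F L (cM y₁) (cM y₂) (cM y₃) 0 0) * (if i = l then 1 else 0) = 0 := by
    intro i l
    refine poly_zero_of_ne _ _ hq ?_
    intro t ht
    have ht' : disc3 (evM t L) ≠ 0 := by
      rw [evM, map_disc3]; simpa using ht
    obtain ⟨P, Q, e, hPQ, hx, -⟩ := exists_diagonalization _ ht'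
    obtain ⟨s, hs⟩ := F_scalar_of_diagonalizable P Q hPQ e _ hx y₁ y₂ y₃
    have hF : evM t (F L (cM y₁) (cM y₂) (cM y₃)) = s • (1 : Matrix (Fin 3) (Fin 3) K) := by
      rw [map_F, evM_cM, evM_cM, evM_cM, hs]
    have h1 := congrFun (congrFun hF i) l
    have h2 := congrFun (congrFun hF 0) 0
    rw [evM_apply] at h1 h2
    rw [Polynomial.eval_sub, Polynomial.eval_mul, h1, h2]
    by_cases hil : i = l
    · subst hil; simp
    · simp [hil]
  ext i l
  have h := congrArg (Polynomial.eval 0) (hzero i l)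
  have hF0 : evM 0 (F L (cM y₁) (cM y₂) (cM y₃)) = F x y₁ y₂ y₃ := by
    rw [map_F, evM_cM, evM_cM, evM_cM, hL, evM_lineM]
    simp
  have h1 := congrFun (congrFun hF0 i) l
  have h2 := congrFun (congrFun hF0 0) 0
  rw [evM_apply] at h1 h2
  rw [Polynomial.eval_sub, Polynomial.eval_mul, h1, h2] at h
  simp only [Polynomial.eval_zero] at h
  rw [sub_eq_zero] at h
  rw [h]
  by_cases hil : i = l
  · subst hil; simp
  · simp [hil]

end Pool.Agent.Lib.MP_1a49c3_al
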