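import Pool.Agent.Lib.MP_1a49c3_al.Central

set_option autoImplicit false

namespace Pool.Agent.Lib.MP_1a49c3_al

open Matrix Polynomial

section comm
variable {R : Type*} [CommRing R]

/-- Cayley-Hamilton for `3 × 3` matrices. -/
theorem cayley3 (M : Matrix (Fin 3) (Fin 3) R) :
    M * M * M = M.trace • (M * M) - e2 M • M + M.det • (1 : Matrix (Fin 3) (Fin 3) R) := by
  have h := Matrix.aeval_self_charpoly M
  rw [charpoly3] at h
  simp only [map_sub, map_add, map_mul, map_pow, aeval_X, aeval_C] at h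
  rw [Algebra.algebraMap_eq_smul_one, Algebra.algebraMap_eq_smul_one,
    Algebra.algebraMap_eq_smul_one, smul_mul_assoc, smul_mul_assoc, one_mul, one_mul] at h
  have h3 : M ^ 3 = M * M * M := by rw [pow_succ, pow_two]
  have h2 : M ^ 2 = M * M := pow_two M
  rw [h3, h2, sub_eq_zero] at h
  rw [← h]
  abel

theorem e2_sq_add (M : Matrix (Fin 3) (Fin 3) R) (e : R) :
    e2 (M * M + e • M) = e2 M ^ 2 - 2 * M.trace * M.det + e ^ 2 * e2 M
      + e * (M.trace * e2 M - 3 * M.det) := by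
  simp only [e2, Matrix.add_apply, Matrix.smul_apply, smul_eq_mul, Matrix.mul_apply,
    Fin.sum_univ_three, Matrix.trace_fin_three, Matrix.det_fin_three]
  ring

theorem e2_add_scalar (M : Matrix (Fin 3) (Fin 3) R) (e : R) :
    e2 (M + e • (1 : Matrix (Fin 3) (Fin 3) R)) = e2 M + 2 * e * M.trace + 3 * e ^ 2 := by
  simp [e2, Matrix.add_apply, Matrix.smul_apply, smul_eq_mul, Matrix.trace_fin_three]
  ring

theorem e2_smul (M : Matrix (Fin 3) (Fin 3) R) (e : R) : e2 (e • M) = e ^ 2 * e2 M := by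
  simp only [e2, Matrix.smul_apply, smul_eq_mul]
  ring

theorem trace_sq (M : Matrix (Fin 3) (Fin 3) R) :
    (M * M).trace = M.trace ^ 2 - 2 * e2 M := by
  simp only [e2, Matrix.mul_apply, Fin.sum_univ_three, Matrix.trace_fin_three]
  ring

theorem e2_sq (M : Matrix (Fin 3) (Fin 3) R) :
    e2 (M * M) = e2 M ^ 2 - 2 * M.trace * M.det := by
  have := e2_sq_add M 0
  simpa using this

theorem trace_smul' (M : Matrix (Fin 3) (Fin 3) R) (e : R) : (e • M).trace = e * M.trace := by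
  simp

/-- The central functional used to clear traces. -/
def T {S : Type*} [Ring S] (x z y₂ y₃ w : S) : S := F x (w * z - z * w) y₂ y₃

theorem F_add₁ {S : Type*} [Ring S] (x a b y₂ y₃ : S) :
    F x (a + b) y₂ y₃ = F x a y₂ y₃ + F x b y₂ y₃ := by
  simp only [F, G]; noncomm_ring

theorem F_smul₁ (r : R) (x a y₂ y₃ : Matrix (Fin 3) (Fin 3) R) :
    F x (r • a) y₂ y₃ = r • F x a y₂ y₃ := by
  simp only [F, G, Matrix.mul_smul, Matrix.smul_mul, ← smul_sub, ← smul_add]

theorem F_smul₂ (r : R) (x a y₂ y₃ : Matrix (Fin 3) (Fin 3) R) :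
    F x a (r • y₂) y₃ = r • F x a y₂ y₃ := by
  simp only [F, G, Matrix.mul_smul, Matrix.smul_mul, ← smul_sub, ← smul_add]

theorem T_smul (r : R) (x z y₂ y₃ w : Matrix (Fin 3) (Fin 3) R) :
    T x z y₂ y₃ (r • w) = r • T x z y₂ y₃ w := by
  rw [T, T, ← F_smul₁]
  congr 1
  simp [smul_sub]

/-- Multiplication by `e2 q` is expressed by noncommutative polynomials, for `q` of trace zero. -/
theorem T_cube (x z y₂ y₃ q : Matrix (Fin 3) (Fin 3) R) (hq : q.trace = 0) :
    T x z y₂ y₃ (q * q * q) = (- e2 q) • T x z y₂ y₃ q := by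
  rw [← T_smul, T, T]
  congr 1
  rw [cayley3 q, hq]
  simp only [zero_smul, zero_sub, neg_smul, Matrix.add_mul, Matrix.mul_add, Matrix.smul_mul,
    Matrix.mul_smul, Matrix.one_mul, Matrix.mul_one, Matrix.neg_mul, Matrix.mul_neg]
  abel

end comm

section field
variable {K : Type*} [Field K]

/-- The polynomial map whose closures are the quadrics. -/
def pk {S : Type*} [Ring S] (kq : S → S) (x z y₂ y₃ q : S) : S :=
  q * q * T x z y₂ y₃ q - kq (T x z y₂ y₃ (q * q * q))

theorem pk_value (k : K) (x z y₂ y₃ q : Matrix (Fin 3) (Fin 3) K) (s : K)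
    (hs : T x z y₂ y₃ q = s • (1 : Matrix (Fin 3) (Fin 3) K)) (hq : q.trace = 0) :
    pk (fun m => k • m) x z y₂ y₃ q = s • (q * q + (k * e2 q) • (1 : Matrix (Fin 3) (Fin 3) K)) := by
  simp only [pk]
  rw [T_cube x z y₂ y₃ q hq, hs, smul_add, Matrix.mul_smul, Matrix.mul_one, neg_smul, smul_neg,
    sub_neg_eq_add, smul_smul, smul_smul, smul_smul]
  congr 2
  ring

/-- Values lie on the quadric. -/
theorem value_mem_quadric (k c : K) (hc : (1 - k) * (1 - 3 * k) = c * (3 * k - 2) ^ 2)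
    (s : K) (q : Matrix (Fin 3) (Fin 3) K) (hq : q.trace = 0) :
    e2 (s • (q * q + (k * e2 q) • (1 : Matrix (Fin 3) (Fin 3) K))) =
      c * (s • (q * q + (k * e2 q) • (1 : Matrix (Fin 3) (Fin 3) K))).trace ^ 2 := by
  rw [e2_smul, e2_add_scalar, e2_sq, trace_smul', Matrix.trace_add, trace_smul', trace_sq, hq,
    Matrix.trace_one]
  simp only [Fintype.card_fin, Nat.cast_ofNat]
  have : s ^ 2 * e2 q ^ 2 * ((1 - k) * (1 - 3 * k)) = s ^ 2 * e2 q ^ 2 * (c * (3 * k - 2) ^ 2) := by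
    rw [hc]
  linear_combination this

/-- On the quadric, `x := A - k e` has a square root of trace zero when it is invertible. -/
theorem exists_root_of_quadric [IsAlgClosed K] (k c : K)
    (hc : (1 - k) * (1 - 3 * k) = c * (3 * k - 2) ^ 2) (hk : 3 * k - 2 ≠ 0)
    (A : Matrix (Fin 3) (Fin 3) K) (hA : e2 A = c * A.trace ^ 2) (e : K)
    (he : e * (3 * k - 2) = A.trace)
    (x : Matrix (Fin 3) (Fin 3) K) (hx : x = A - (k * e) • (1 : Matrix (Fin 3) (Fin 3) K))
    (hd : x.det ≠ 0) :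
    ∃ s : K, s ≠ 0 ∧ ∃ q : Matrix (Fin 3) (Fin 3) K, q = s • (x * x + e • x) ∧ q.trace = 0 ∧
      q * q + (k * e2 q) • (1 : Matrix (Fin 3) (Fin 3) K) = A := by
  have hAx : A = x + (k * e) • (1 : Matrix (Fin 3) (Fin 3) K) := by rw [hx]; abel
  have htr : x.trace = -2 * e := by
    have h1 := congrArg Matrix.trace hx
    rw [Matrix.trace_sub, trace_smul', Matrix.trace_one, ← he] at h1
    simp only [Fintype.card_fin, Nat.cast_ofNat] at h1
    rw [h1]; ring
  have he2 : e2 x = e ^ 2 := by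
    have h1 := e2_add_scalar x (k * e)
    rw [← hAx, hA, htr, ← he] at h1
    linear_combination -h1 - e ^ 2 * hc
  obtain ⟨r, hr⟩ := IsAlgClosed.exists_pow_nat_eq x.det (n := 2) (by norm_num)
  have hr0 : r ≠ 0 := by
    rintro rfl
    apply hd
    rw [← hr]; ring
  have hq_tr : (x * x + e • x).trace = 0 := by
    rw [Matrix.trace_add, trace_smul', trace_sq, htr, he2]; ring
  have hq_e2 : e2 (x * x + e • x) = e * x.det := by
    rw [e2_sq_add, htr, he2]; ring
  have hcay := cayley3 x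
  rw [htr, he2] at hcay
  have hq_sq : (x * x + e • x) * (x * x + e • x) = x.det • x := by
    have h1 : (x * x + e • x) * (x * x + e • x) =
        x * (x * x * x) + (2 * e) • (x * x * x) + (e ^ 2) • (x * x) := by
      simp only [Matrix.mul_add, Matrix.add_mul, Matrix.smul_mul, Matrix.mul_smul,
        Matrix.mul_assoc]
      module
    rw [h1, hcay]
    simp only [Matrix.mul_add, Matrix.mul_sub, Matrix.mul_smul, Matrix.mul_one, smul_add, smul_sub,
      smul_smul, ← Matrix.mul_assoc]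
    rw [hcay]
    module
  refine ⟨r⁻¹, inv_ne_zero hr0, r⁻¹ • (x * x + e • x), rfl, ?_, ?_⟩
  · rw [trace_smul', hq_tr, mul_zero]
  · rw [Matrix.smul_mul, Matrix.mul_smul, smul_smul, hq_sq, e2_smul, hq_e2, smul_smul, hAx, ← hr]
    have h1 : r⁻¹ * r⁻¹ * r ^ 2 = 1 := by field_simp
    have h2 : k * (r⁻¹ ^ 2 * (e * r ^ 2)) = k * e := by field_simp
    rw [h1, h2, one_smul]

end field

end Pool.Agent.Lib.MP_1a49c3_al
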