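import Pool.Agent.Lib.MP_1a49c3_al.Defs
import Pool.Agent.Lib.MP_1a49c3_al.Quad

set_option autoImplicit false

namespace Pool.Agent.Lib.MP_1a49c3_al

open Matrix Polynomial

variable {K : Type*} [Field K]

/-- Evaluation of a polynomial in the entries. -/
noncomputable def ev (A : Matrix (Fin 3) (Fin 3) K) (φ : MvPolynomial (Fin 3 × Fin 3) K) : K :=
  MvPolynomial.eval (fun ij => A ij.1 ij.2) φ

theorem ev_curve (φ : MvPolynomial (Fin 3 × Fin 3) K) (AX : Matrix (Fin 3) (Fin 3) K[X]) (t : K) :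
    (MvPolynomial.aeval (fun ij : Fin 3 × Fin 3 => AX ij.1 ij.2) φ).eval t = ev (evM t AX) φ := by
  have h : (Polynomial.aeval t).comp
      (MvPolynomial.aeval (fun ij : Fin 3 × Fin 3 => AX ij.1 ij.2)) =
      (MvPolynomial.aeval (fun ij : Fin 3 × Fin 3 => (evM t AX) ij.1 ij.2) :
        MvPolynomial (Fin 3 × Fin 3) K →ₐ[K] K) := by
    apply MvPolynomial.algHom_ext
    intro ij
    simp [evM_apply]
  have h2 := congrArg (fun f : MvPolynomial (Fin 3 × Fin 3) K →ₐ[K] K => f φ) h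
  simp only [AlgHom.comp_apply] at h2
  rw [Polynomial.coe_aeval_eq_eval] at h2
  rw [h2, ev, MvPolynomial.aeval_eq_eval]

/-- If `φ` vanishes at almost all points of a polynomial curve, it vanishes on the curve. -/
theorem curve_zero [Infinite K] (φ : MvPolynomial (Fin 3 × Fin 3) K)
    (AX : Matrix (Fin 3) (Fin 3) K[X]) (g : K[X]) (hg : g ≠ 0)
    (h : ∀ t, g.eval t ≠ 0 → ev (evM t AX) φ = 0) (t : K) : ev (evM t AX) φ = 0 := by
  have := poly_zero_of_ne (MvPolynomial.aeval (fun ij : Fin 3 × Fin 3 => AX ij.1 ij.2) φ) g hg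
    (fun t ht => by rw [ev_curve]; exact h t ht)
  rw [← ev_curve, this]
  simp

/-- Every matrix of trace zero is `[v₀, v₁] + [v₂, v₃]`. -/
theorem exists_commutators [Infinite K] (q : Matrix (Fin 3) (Fin 3) K) (hq : q.trace = 0) :
    ∃ v₀ v₁ v₂ v₃ : Matrix (Fin 3) (Fin 3) K,
      q = (v₀ * v₁ - v₁ * v₀) + (v₂ * v₃ - v₃ * v₂) := by
  obtain ⟨d, hd⟩ := exists_inj3 (K := K)
  have h01 : d 0 - d 1 ≠ 0 := sub_ne_zero.2 (hd.ne (by decide))
  have h02 : d 0 - d 2 ≠ 0 := sub_ne_zero.2 (hd.ne (by decide))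
  have h12 : d 1 - d 2 ≠ 0 := sub_ne_zero.2 (hd.ne (by decide))
  have h10 : d 1 - d 0 ≠ 0 := sub_ne_zero.2 (hd.ne (by decide))
  have h20 : d 2 - d 0 ≠ 0 := sub_ne_zero.2 (hd.ne (by decide))
  have h21 : d 2 - d 1 ≠ 0 := sub_ne_zero.2 (hd.ne (by decide))
  rw [Matrix.trace_fin_three] at hq
  have hq2 : q 2 2 = - q 0 0 - q 1 1 := by linear_combination hq
  refine ⟨diagonal d, Matrix.of fun i j => if i = j then 0 else q i j / (d i - d j),
    !![0, q 0 0, 0; 0, 0, q 0 0 + q 1 1; 0, 0, 0], !![0, 0, 0; 1, 0, 0; 0, 1, 0], ?_⟩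
  ext i j
  rw [Matrix.add_apply, comm_diag]
  fin_cases i <;> fin_cases j <;>
    simp [Matrix.sub_apply] <;> first
    | (field_simp; done) | (rw [hq2]; ring)

/-- The central polynomial does not vanish when the `(1,0)` entry is nonzero. -/
theorem exists_T_ne_zero [IsAlgClosed K] (q : Matrix (Fin 3) (Fin 3) K) (hq : q 1 0 ≠ 0) :
    ∃ (x z y₂ y₃ : Matrix (Fin 3) (Fin 3) K) (s : K), s ≠ 0 ∧
      T x z y₂ y₃ q = s • (1 : Matrix (Fin 3) (Fin 3) K) := by
  have : Infinite K := IsAlgClosed.instInfinite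
  obtain ⟨d, hd⟩ := exists_inj3 (K := K)
  have h01 : d 0 - d 1 ≠ 0 := sub_ne_zero.2 (hd.ne (by decide))
  have h02 : d 0 - d 2 ≠ 0 := sub_ne_zero.2 (hd.ne (by decide))
  have h12 : d 1 - d 2 ≠ 0 := sub_ne_zero.2 (hd.ne (by decide))
  refine ⟨diagonal d, diagonal d, Matrix.single 0 2 1, Matrix.single 2 1 1,
    F (diagonal d) (q * diagonal d - diagonal d * q) (Matrix.single 0 2 1)
      (Matrix.single 2 1 1) 0 0, ?_, ?_⟩
  · have hw : ∀ i j, (q * diagonal d - diagonal d * q) i j = (d j - d i) * q i j := by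
      intro i j
      simp [Matrix.diagonal_mul, Matrix.mul_diagonal]
      ring
    have key : F (diagonal d) (q * diagonal d - diagonal d * q) (Matrix.single 0 2 1)
        (Matrix.single 2 1 1) 0 0 =
        - ((d 0 - d 2) ^ 2 * (d 1 - d 2) ^ 2 * (d 0 - d 1) ^ 3 * q 1 0) := by
      simp only [F, Matrix.add_apply, G_diag, Fin.sum_univ_three, hw]
      simp
      ring
    rw [key]
    exact neg_ne_zero.2 (mul_ne_zero (mul_ne_zero (mul_ne_zero (pow_ne_zero 2 h02)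
      (pow_ne_zero 2 h12)) (pow_ne_zero 3 h01)) hq)
  · exact F_central _ _ _ _

end Pool.Agent.Lib.MP_1a49c3_al
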