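import Mathlib

set_option autoImplicit false

namespace Pool.Agent.Lib.MP_1a49c3_al

open Matrix Polynomial

variable {K : Type*} [Field K]

/-- The value of a noncommutative polynomial `p` at a tuple `A` of `3 × 3` matrices. -/
noncomputable def value {m : ℕ} (p : FreeAlgebra K (Fin m))
    (A : Fin m → Matrix (Fin 3) (Fin 3) K) : Matrix (Fin 3) (Fin 3) K :=
  FreeAlgebra.lift K A p

/-- The image of `p` on `3 × 3` matrices. -/
def image {m : ℕ} (p : FreeAlgebra K (Fin m)) : Set (Matrix (Fin 3) (Fin 3) K) :=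
  Set.range (value p)

/-- `p` is homogeneous of degree `d`: it is a linear combination of products of `d` variables. -/
def IsHomogeneous {m : ℕ} (p : FreeAlgebra K (Fin m)) (d : ℕ) : Prop :=
  p ∈ (Submodule.span K (Set.range (FreeAlgebra.ι K : Fin m → FreeAlgebra K (Fin m)))) ^ d

/-- The Zariski closure of a set of `3 × 3` matrices, in the affine space of the nine entries. -/
def zariskiClosure (S : Set (Matrix (Fin 3) (Fin 3) K)) : Set (Matrix (Fin 3) (Fin 3) K) :=
  {A | ∀ φ : MvPolynomial (Fin 3 × Fin 3) K,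
    (∀ B ∈ S, MvPolynomial.eval (fun ij => B ij.1 ij.2) φ = 0) →
      MvPolynomial.eval (fun ij => A ij.1 ij.2) φ = 0}

variable (K) in
/-- The Zariski closures of the images of the homogeneous polynomials of positive degree. -/
def imageClosures : Set (Set (Matrix (Fin 3) (Fin 3) K)) :=
  {X | ∃ (m d : ℕ) (p : FreeAlgebra K (Fin m)), 0 < d ∧ IsHomogeneous p d ∧
    zariskiClosure (image p) = X}

variable (K) in
/-- The `3`-scalar matrices: characteristic polynomial `X ^ 3 - c`. -/
def V3 : Set (Matrix (Fin 3) (Fin 3) K) := {A | ∃ c : K, A.charpoly = X ^ 3 - C c}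

variable (K) in
/-- The six sets of the conjecture. -/
def sixSets : Set (Set (Matrix (Fin 3) (Fin 3) K)) :=
  { {0}, {A | ∃ c : K, A = c • (1 : Matrix (Fin 3) (Fin 3) K)}, V3 K, {A | A.trace = 0},
    zariskiClosure {A | ∃ B ∈ V3 K, ∃ c : K, A = B + c • (1 : Matrix (Fin 3) (Fin 3) K)},
    Set.univ }

/-- The quadric hypersurface `e₂(A) = c * (trace A) ^ 2`, where `e₂(A)` is the coefficient of `X`
in the characteristic polynomial of `A`. -/
def quadric (c : K) : Set (Matrix (Fin 3) (Fin 3) K) :=
  {A | A.charpoly.coeff 1 = c * A.trace ^ 2}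

end Pool.Agent.Lib.MP_1a49c3_al
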