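import Pool.Agent.Lib.MP_1a49c3_al.Curves

set_option autoImplicit false

namespace Pool.Agent.Lib.MP_1a49c3_al

open Matrix Polynomial

variable {K : Type*} [Field K]

theorem mem_quadric (c : K) (A : Matrix (Fin 3) (Fin 3) K) :
    A ∈ quadric c ↔ e2 A = c * A.trace ^ 2 := by
  rw [quadric, Set.mem_ofPred_eq, charpoly_coeff_one]

/-- reference trace-zero matrix -/
def q0 (R : Type*) [CommRing R] : Matrix (Fin 3) (Fin 3) R := !![1, 0, 1; 1, 0, 0; 0, 1, -1]

/-- The two conditions under which a point of the quadric is directly a value. -/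
theorem direct_value [IsAlgClosed K] (k c : K)
    (hc : (1 - k) * (1 - 3 * k) = c * (3 * k - 2) ^ 2) (hk : 3 * k - 2 ≠ 0)
    (A : Matrix (Fin 3) (Fin 3) K) (hA : e2 A = c * A.trace ^ 2) (e : K)
    (he : e * (3 * k - 2) = A.trace)
    (x : Matrix (Fin 3) (Fin 3) K) (hx : x = A - (k * e) • (1 : Matrix (Fin 3) (Fin 3) K))
    (hd : x.det ≠ 0) (h10 : (x * x + e • x) 1 0 ≠ 0) :
    ∃ X z y₂ y₃ v₀ v₁ v₂ v₃ : Matrix (Fin 3) (Fin 3) K,
      pk (fun m => k • m) X z y₂ y₃ ((v₀ * v₁ - v₁ * v₀) + (v₂ * v₃ - v₃ * v₂)) = A := by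
  have : Infinite K := IsAlgClosed.instInfinite
  obtain ⟨s, hs, q, hq, hqtr, hqA⟩ := exists_root_of_quadric k c hc hk A hA e he x hx hd
  have hq10 : q 1 0 ≠ 0 := by
    rw [hq, Matrix.smul_apply, smul_eq_mul]
    exact mul_ne_zero hs h10
  obtain ⟨X, z, y₂, y₃, r, hr, hT⟩ := exists_T_ne_zero q hq10
  obtain ⟨v₀, v₁, v₂, v₃, hv⟩ := exists_commutators q hqtr
  refine ⟨X, z, r⁻¹ • y₂, y₃, v₀, v₁, v₂, v₃, ?_⟩
  rw [← hv]
  have hT' : T X z (r⁻¹ • y₂) y₃ q = (1 : K) • (1 : Matrix (Fin 3) (Fin 3) K) := by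
    rw [T, F_smul₂]
    rw [T] at hT
    rw [hT, smul_smul, inv_mul_cancel₀ hr]
  rw [pk_value k X z (r⁻¹ • y₂) y₃ q 1 hT' hqtr, one_smul, hqA]

theorem evM_trace (t : K) (M : Matrix (Fin 3) (Fin 3) K[X]) :
    (evM t M).trace = (M.trace).eval t := by
  simp [Matrix.trace_fin_three, evM_apply]

theorem evM_det (t : K) (M : Matrix (Fin 3) (Fin 3) K[X]) :
    (evM t M).det = (M.det).eval t := by
  rw [evM, ← RingHom.map_det]; simp

theorem evM_e2 (t : K) (M : Matrix (Fin 3) (Fin 3) K[X]) :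
    e2 (evM t M) = (e2 M).eval t := by
  rw [evM, map_e2]; simp

/-- The curve through two points of the quadric with the same nonzero `(1,0)` entry. -/
noncomputable def conn (c a : K) (A B : Matrix (Fin 3) (Fin 3) K) : Matrix (Fin 3) (Fin 3) K[X] :=
  let L := lineM A B
  Matrix.of ![![L 0 0, C a⁻¹ * (L 0 0 * L 1 1 + (L 0 0 * L 2 2 - L 0 2 * L 2 0)
    + (L 1 1 * L 2 2 - L 1 2 * L 2 1) - C c * (L 0 0 + L 1 1 + L 2 2) ^ 2), L 0 2],
    ![L 1 0, L 1 1, L 1 2], ![L 2 0, L 2 1, L 2 2]]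

theorem conn_mem (c a : K) (ha : a ≠ 0) (A B : Matrix (Fin 3) (Fin 3) K) (hA : A 1 0 = a)
    (hB : B 1 0 = a) (t : K) :
    e2 (evM t (conn c a A B)) = c * (evM t (conn c a A B)).trace ^ 2 := by
  have h10 : (lineM A B 1 0).eval t = a := by
    rw [← evM_apply, evM_lineM]
    simp [hA, hB]
  simp only [e2, Matrix.trace_fin_three, evM_apply, conn]
  simp [h10]
  field_simp
  ring

theorem conn_ends (c a : K) (ha : a ≠ 0) (A B D : Matrix (Fin 3) (Fin 3) K) (t : K)
    (hD : D = A + t • (B - A)) (hDq : e2 D = c * D.trace ^ 2) (hD10 : D 1 0 = a) :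
    evM t (conn c a A B) = D := by
  have hL : ∀ i j, (lineM A B i j).eval t = D i j := by
    intro i j
    rw [← evM_apply, evM_lineM, ← hD]
  have h01 : a⁻¹ * (D 0 0 * D 1 1 + (D 0 0 * D 2 2 - D 0 2 * D 2 0)
    + (D 1 1 * D 2 2 - D 1 2 * D 2 1) - c * (D 0 0 + D 1 1 + D 2 2) ^ 2) = D 0 1 := by
    rw [e2, Matrix.trace_fin_three, hD10] at hDq
    field_simp
    linear_combination hDq
  ext i j
  rw [evM_apply]
  fin_cases i <;> fin_cases j <;> simp [conn, hL]
  exact h01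

/-- Any polynomial vanishing on all values vanishes at the points of the quadric with nonzero
`(1,0)` entry. -/
theorem step2 [IsAlgClosed K] (k c : K)
    (hc : (1 - k) * (1 - 3 * k) = c * (3 * k - 2) ^ 2) (hk : 3 * k - 2 ≠ 0)
    (φ : MvPolynomial (Fin 3 × Fin 3) K)
    (hφ : ∀ X z y₂ y₃ v₀ v₁ v₂ v₃ : Matrix (Fin 3) (Fin 3) K,
      ev (pk (fun m => k • m) X z y₂ y₃ ((v₀ * v₁ - v₁ * v₀) + (v₂ * v₃ - v₃ * v₂))) φ = 0)
    (A : Matrix (Fin 3) (Fin 3) K) (hA : e2 A = c * A.trace ^ 2) (h10 : A 1 0 ≠ 0) :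
    ev A φ = 0 := by
  have : Infinite K := IsAlgClosed.instInfinite
  set a := A 1 0 with ha
  -- the reference point
  set B : Matrix (Fin 3) (Fin 3) K :=
    a • (q0 K * q0 K + (k * e2 (q0 K)) • (1 : Matrix (Fin 3) (Fin 3) K)) with hB
  have hq0tr : (q0 K).trace = 0 := by
    simp [q0, Matrix.trace_fin_three]
  have hBq : e2 B = c * B.trace ^ 2 := value_mem_quadric k c hc a _ hq0tr
  have hB' : B = a • !![1 - k, 1, 0; 1, -k, 1; 1, -1, 1 - k] := by
    rw [hB]
    ext i j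
    fin_cases i <;> fin_cases j <;>
      simp [q0, e2, -mul_eq_mul_left_iff] <;> ring
  have hB10 : B 1 0 = a := by rw [hB']; simp
  set AX := conn c a A B with hAX
  have h0 : evM 0 AX = A := conn_ends c a h10 A B A 0 (by simp) hA rfl
  have h1 : evM 1 AX = B := conn_ends c a h10 A B B 1 (by simp) hBq hB10
  let tX : K[X] := C (3 * k - 2)⁻¹ * AX.trace
  let xX : Matrix (Fin 3) (Fin 3) K[X] := AX - (C k * tX) • (1 : Matrix (Fin 3) (Fin 3) K[X])
  let g : K[X] := xX.det * (xX * xX + tX • xX) 1 0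
  have hevx : ∀ t, evM t xX = evM t AX - (k * tX.eval t) • (1 : Matrix (Fin 3) (Fin 3) K) := by
    intro t
    simp only [xX, map_sub, evM_smul, map_one, eval_mul, eval_C]
  have hevg : ∀ t, g.eval t = (evM t xX).det *
      ((evM t xX) * (evM t xX) + (tX.eval t) • (evM t xX)) 1 0 := by
    intro t
    rw [evM_det]
    have : (evM t xX) * (evM t xX) + (tX.eval t) • (evM t xX) = evM t (xX * xX + tX • xX) := by
      rw [map_add, map_mul, evM_smul]
    rw [this, evM_apply]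
    simp only [g, eval_mul]
  have hg1 : g.eval 1 ≠ 0 := by
    have htX : tX.eval 1 = -a := by
      simp only [tX, eval_mul, eval_C]
      rw [← evM_trace, h1, hB', Matrix.trace_smul, Matrix.trace_fin_three]
      simp
      field_simp
      ring
    have hx1 : evM 1 xX = a • !![1, 1, 0; 1, 0, 1; 1, -1, 1] := by
      rw [hevx, htX, h1, hB']
      ext i j
      fin_cases i <;> fin_cases j <;> simp <;> ring
    rw [hevg, hx1, htX]
    rw [Matrix.det_smul, Matrix.det_fin_three]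
    simp
    exact h10
  have hg : g ≠ 0 := by
    intro h
    rw [h] at hg1
    simp at hg1
  rw [← h0]
  refine curve_zero φ AX g hg ?_ 0
  intro t ht
  rw [hevg] at ht
  obtain ⟨X, z, y₂, y₃, v₀, v₁, v₂, v₃, hv⟩ := direct_value k c hc hk (evM t AX)
    (conn_mem c a h10 A B rfl hB10 t) (tX.eval t) (by
      simp only [tX, eval_mul, eval_C]
      rw [evM_trace]
      field_simp) (evM t xX) (hevx t) (left_ne_zero_of_mul ht) (right_ne_zero_of_mul ht)
  rw [← hv]
  exact hφ _ _ _ _ _ _ _ _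

end Pool.Agent.Lib.MP_1a49c3_al
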