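import Pool.Agent.Lib.MP_1a49c3_al.Dense

set_option autoImplicit false

namespace Pool.Agent.Lib.MP_1a49c3_al

open Matrix Polynomial

variable {K : Type*} [Field K]

/-- A matrix all of whose `w A v` with `w v = 0` (normalised) vanish is scalar. -/
theorem scalar_of_form [Infinite K] (A : Matrix (Fin 3) (Fin 3) K)
    (h : ∀ v₀ v₂ w₂ : K,
      (A 0 0 * v₀ + A 0 1 + A 0 2 * v₂) + (-v₀ - w₂ * v₂) * (A 1 0 * v₀ + A 1 1 + A 1 2 * v₂)
        + w₂ * (A 2 0 * v₀ + A 2 1 + A 2 2 * v₂) = 0) :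
    A = A 0 0 • (1 : Matrix (Fin 3) (Fin 3) K) := by
  obtain ⟨u, hu⟩ := Set.Infinite.nonempty (Set.infinite_univ (α := K) |>.sdiff
    (Set.toFinite ({0, 1} : Set K)))
  have hu0 : u ≠ 0 := fun hh => hu.2 (by simp [hh])
  have hu1 : u - 1 ≠ 0 := sub_ne_zero.2 fun hh => hu.2 (by simp [hh])
  have h000 := h 0 0 0
  have h100 := h 1 0 0
  have hu00 := h u 0 0
  have h010 := h 0 1 0
  have h001 := h 0 0 1
  have h011 := h 0 1 1
  have h0u1 := h 0 u 1
  have h101 := h 1 0 1
  have h110 := h 1 1 0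
  simp only [mul_zero, add_zero, zero_add, mul_one, neg_zero, sub_zero, zero_mul, one_mul,
    zero_sub] at h000 h100 hu00 h010 h001 h011 h0u1 h101 h110
  have A01 : A 0 1 = 0 := by simpa using h000
  have A02 : A 0 2 = 0 := by simpa [A01] using h010
  have A21 : A 2 1 = 0 := by simpa [A01] using h001
  have A10 : A 1 0 = 0 := by
    have e1 : u * (u - 1) * A 1 0 = 0 := by
      linear_combination u * h100 - hu00 + (1 - u) * A01
    exact (mul_eq_zero.1 e1).resolve_left (mul_ne_zero hu0 hu1)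
  have A00 : A 0 0 = A 1 1 := by
    linear_combination h100 - A01 + A10
  have A12 : A 1 2 = 0 := by
    linear_combination -h110 + A00 + A01 + A02 - A10
  have A22 : A 2 2 = A 1 1 := by
    linear_combination h011 - A01 - A02 - A21 + A12
  have A20 : A 2 0 = 0 := by
    linear_combination h101 - A01 - A00 + A10 - A21
  ext i j
  fin_cases i <;> fin_cases j <;> simp [A01, A02, A21, A10, A12, A20, A00, A22]

/-- conjugation by a unipotent matrix does not change the characteristic polynomial -/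
theorem charpoly_unip (N A : Matrix (Fin 3) (Fin 3) K) (hN : N * N = 0) :
    ((1 + N) * A * (1 - N)).charpoly = A.charpoly := by
  rw [Matrix.charpoly_mul_comm, ← Matrix.mul_assoc]
  have : (1 - N) * (1 + N) = 1 := by
    rw [Matrix.sub_mul, Matrix.mul_add, Matrix.mul_add, hN]
    simp
  rw [this, Matrix.one_mul]

theorem trace_eq_of_charpoly (A B : Matrix (Fin 3) (Fin 3) K) (h : A.charpoly = B.charpoly) :
    A.trace = B.trace ∧ e2 A = e2 B := by
  refine ⟨?_, ?_⟩
  · rw [Matrix.trace_eq_neg_charpoly_coeff, Matrix.trace_eq_neg_charpoly_coeff, h]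
  · rw [← charpoly_coeff_one, ← charpoly_coeff_one, h]

/-- The unipotent conjugation curve. -/
noncomputable def unip (N A : Matrix (Fin 3) (Fin 3) K) : Matrix (Fin 3) (Fin 3) K[X] :=
  cM A + (X : K[X]) • cM (N * A - A * N) - (X ^ 2 : K[X]) • cM (N * A * N)

theorem unip_apply (N A : Matrix (Fin 3) (Fin 3) K) (i j : Fin 3) :
    unip N A i j = C (A i j) + X * C ((N * A - A * N) i j) - X ^ 2 * C ((N * A * N) i j) := by
  rfl

theorem evM_unip (N A : Matrix (Fin 3) (Fin 3) K) (t : K) :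
    evM t (unip N A) = (1 + t • N) * A * (1 - t • N) := by
  simp only [unip, map_sub, map_add, evM_smul, evM_cM, eval_X, eval_pow]
  simp only [Matrix.add_mul, Matrix.mul_sub, Matrix.one_mul, Matrix.mul_one, Matrix.smul_mul,
    Matrix.mul_smul]
  module

/-- A family of polynomial identities holding on conjugation-invariant sets at points with nonzero
`(1,0)` entry holds everywhere. -/
theorem step3 [IsAlgClosed K] (c : K) (φ : MvPolynomial (Fin 3 × Fin 3) K)
    (h2 : ∀ A : Matrix (Fin 3) (Fin 3) K, e2 A = c * A.trace ^ 2 → A 1 0 ≠ 0 → ev A φ = 0)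
    (A : Matrix (Fin 3) (Fin 3) K) (hA : e2 A = c * A.trace ^ 2) : ev A φ = 0 := by
  have : Infinite K := IsAlgClosed.instInfinite
  by_cases hsc : A = A 0 0 • (1 : Matrix (Fin 3) (Fin 3) K)
  · -- scalar matrices
    have h0 : evM 0 (cM A + (X : K[X]) • cM (Matrix.single 1 0 1)) = A := by
      rw [map_add, evM_smul, evM_cM]; simp
    rw [← h0]
    refine curve_zero φ _ X X_ne_zero ?_ 0
    intro t ht
    rw [map_add, evM_smul, evM_cM, evM_cM]
    rw [eval_X] at ht ⊢
    refine h2 _ ?_ ?_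
    · rw [hsc] at hA ⊢
      simp [e2] at hA ⊢
      exact hA
    · rw [hsc]
      simp
      exact ht
  · -- non scalar matrices
    have hex : ∃ v₀ v₂ w₂ : K,
      (A 0 0 * v₀ + A 0 1 + A 0 2 * v₂) + (-v₀ - w₂ * v₂) * (A 1 0 * v₀ + A 1 1 + A 1 2 * v₂)
        + w₂ * (A 2 0 * v₀ + A 2 1 + A 2 2 * v₂) ≠ 0 := by
      by_contra hcon
      push Not at hcon
      exact hsc (scalar_of_form A hcon)
    obtain ⟨v₀, v₂, w₂, hne⟩ := hex
    let N : Matrix (Fin 3) (Fin 3) K :=
      !![v₀, v₀ * (-v₀ - w₂ * v₂), v₀ * w₂; 1, -v₀ - w₂ * v₂, w₂;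
        v₂, v₂ * (-v₀ - w₂ * v₂), v₂ * w₂]
    have hNN : N * N = 0 := by
      ext i j
      fin_cases i <;> fin_cases j <;> simp [N, Matrix.mul_apply, Fin.sum_univ_three] <;> ring
    have hNAN : (N * A * N) 1 0 =
      (A 0 0 * v₀ + A 0 1 + A 0 2 * v₂) + (-v₀ - w₂ * v₂) * (A 1 0 * v₀ + A 1 1 + A 1 2 * v₂)
        + w₂ * (A 2 0 * v₀ + A 2 1 + A 2 2 * v₂) := by
      simp only [Matrix.mul_apply, Fin.sum_univ_three]
      simp [N]
      ring
    have h0 : evM 0 (unip N A) = A := by
      rw [evM_unip]; simp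
    rw [← h0]
    refine curve_zero φ _ (unip N A 1 0) ?_ ?_ 0
    · intro hz
      rw [unip_apply] at hz
      have := congrArg (fun p => coeff p 2) hz
      simp at this
      exact hne (hNAN ▸ this)
    · intro t ht
      have htt : ((t • N) * (t • N)) = 0 := by
        rw [Matrix.smul_mul, Matrix.mul_smul, hNN]; simp
      have hch := charpoly_unip (t • N) A htt
      rw [← evM_unip] at hch
      obtain ⟨e1, e2'⟩ := trace_eq_of_charpoly _ _ hch
      refine h2 _ ?_ ?_
      · rw [e1, e2', hA]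
      · rw [evM_apply]; exact ht

end Pool.Agent.Lib.MP_1a49c3_al
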