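import Mathlib

set_option autoImplicit false

namespace Pool.Agent.Lib.MP_1a49c3_al

open Matrix

section ring
variable {R : Type*} [Ring R]

/-- The first half of Formanek's polynomial for `3 × 3` matrices, written with commutators. -/
def G (x y₁ y₂ y₃ : R) : R :=
  x * (x * y₁ - y₁ * x) * (x * (x * y₂ - y₂ * x) - (x * y₂ - y₂ * x) * x) * (x * y₃ - y₃ * x) * x
  - x * (x * y₁ - y₁ * x) * x * (x * (x * y₂ - y₂ * x) - (x * y₂ - y₂ * x) * x)
      * (x * y₃ - y₃ * x)
  - (x * y₁ - y₁ * x) * (x * (x * y₂ - y₂ * x) - (x * y₂ - y₂ * x) * x) * x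
      * (x * y₃ - y₃ * x) * x
  + (x * y₁ - y₁ * x) * x * (x * (x * y₂ - y₂ * x) - (x * y₂ - y₂ * x) * x) * x
      * (x * y₃ - y₃ * x)

/-- Formanek's central polynomial for `3 × 3` matrices. -/
def F (x y₁ y₂ y₃ : R) : R := G x y₁ y₂ y₃ + G x y₂ y₃ y₁ + G x y₃ y₁ y₂

theorem map_G {S : Type*} [Ring S] (f : R →+* S) (x y₁ y₂ y₃ : R) :
    f (G x y₁ y₂ y₃) = G (f x) (f y₁) (f y₂) (f y₃) := by
  simp only [G, map_sub, map_mul, map_add]

theorem map_F {S : Type*} [Ring S] (f : R →+* S) (x y₁ y₂ y₃ : R) :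
    f (F x y₁ y₂ y₃) = F (f x) (f y₁) (f y₂) (f y₃) := by
  simp only [F, map_add, map_G]

end ring

section comm
variable {R : Type*} [CommRing R]

theorem comm_diag (d : Fin 3 → R) (y : Matrix (Fin 3) (Fin 3) R) (i j : Fin 3) :
    (diagonal d * y - y * diagonal d) i j = (d i - d j) * y i j := by
  simp [Matrix.diagonal_mul, Matrix.mul_diagonal]
  ring

theorem comm2_diag (d : Fin 3 → R) (y : Matrix (Fin 3) (Fin 3) R) (i j : Fin 3) :
    (diagonal d * (diagonal d * y - y * diagonal d) - (diagonal d * y - y * diagonal d) * diagonal d)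
      i j = (d i - d j) ^ 2 * y i j := by
  rw [comm_diag, comm_diag]
  ring

theorem four_diag (d : Fin 3 → R) (A B C : Matrix (Fin 3) (Fin 3) R) (i l : Fin 3) :
    (diagonal d * A * B * C * diagonal d - diagonal d * A * diagonal d * B * C
      - A * B * diagonal d * C * diagonal d + A * diagonal d * B * diagonal d * C) i l =
      ∑ j, ∑ k, ((d i - d k) * (d l - d j)) * (A i j * B j k * C k l) := by
  simp only [Matrix.add_apply, Matrix.sub_apply, Matrix.mul_apply, Fin.sum_univ_three]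
  fin_cases i <;> fin_cases l <;> simp <;> ring

theorem G_diag (d : Fin 3 → R) (y₁ y₂ y₃ : Matrix (Fin 3) (Fin 3) R) (i l : Fin 3) :
    G (diagonal d) y₁ y₂ y₃ i l = ∑ j, ∑ k, (d i - d j) * (d j - d k) ^ 2 * (d k - d l) *
      ((d i - d k) * (d l - d j)) * (y₁ i j * y₂ j k * y₃ k l) := by
  rw [G, four_diag]
  refine Finset.sum_congr rfl fun j _ => Finset.sum_congr rfl fun k _ => ?_
  rw [comm_diag, comm2_diag, comm_diag]
  ring

theorem F_diag (d : Fin 3 → R) (y₁ y₂ y₃ : Matrix (Fin 3) (Fin 3) R) :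
    F (diagonal d) y₁ y₂ y₃ = (F (diagonal d) y₁ y₂ y₃ 0 0) • (1 : Matrix (Fin 3) (Fin 3) R) := by
  ext i l
  simp only [F, Matrix.add_apply, Matrix.smul_apply, smul_eq_mul, G_diag, Fin.sum_univ_three]
  fin_cases i <;> fin_cases l <;> simp <;> ring

/-- Formanek's polynomial is invariant under conjugation. -/
theorem F_conj (P Q x y₁ y₂ y₃ : Matrix (Fin 3) (Fin 3) R) (hPQ : P * Q = 1) :
    F (P * x * Q) (P * y₁ * Q) (P * y₂ * Q) (P * y₃ * Q) = P * F x y₁ y₂ y₃ * Q := by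
  have hQP : Q * P = 1 := mul_eq_one_comm.1 hPQ
  let φ : Matrix (Fin 3) (Fin 3) R →+* Matrix (Fin 3) (Fin 3) R :=
    { toFun := fun M => P * M * Q
      map_one' := by simp [hPQ]
      map_mul' := by
        intro M N
        calc P * (M * N) * Q = P * M * (1 * (N * Q)) := by
              rw [one_mul]; simp only [Matrix.mul_assoc]
          _ = P * M * Q * (P * N * Q) := by
              rw [← hQP]; simp only [Matrix.mul_assoc]
      map_zero' := by simp
      map_add' := by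
        intro M N
        rw [Matrix.mul_add, Matrix.add_mul] }
  exact (map_F φ x y₁ y₂ y₃).symm

theorem F_scalar_of_diagonalizable (P Q : Matrix (Fin 3) (Fin 3) R) (hPQ : P * Q = 1)
    (d : Fin 3 → R) (x : Matrix (Fin 3) (Fin 3) R) (hx : x = P * diagonal d * Q)
    (y₁ y₂ y₃ : Matrix (Fin 3) (Fin 3) R) :
    ∃ s : R, F x y₁ y₂ y₃ = s • (1 : Matrix (Fin 3) (Fin 3) R) := by
  have hQP : Q * P = 1 := mul_eq_one_comm.1 hPQ
  have h : ∀ y : Matrix (Fin 3) (Fin 3) R, y = P * (Q * y * P) * Q := by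
    intro y
    calc y = 1 * y * 1 := by simp
      _ = (P * Q) * y * (P * Q) := by rw [hPQ]
      _ = _ := by simp only [Matrix.mul_assoc]
  refine ⟨F (diagonal d) (Q * y₁ * P) (Q * y₂ * P) (Q * y₃ * P) 0 0, ?_⟩
  rw [hx, h y₁, h y₂, h y₃, F_conj _ _ _ _ _ _ hPQ, ← h y₁, ← h y₂, ← h y₃, F_diag]
  simp [hPQ]

end comm

end Pool.Agent.Lib.MP_1a49c3_al
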