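import Pool.Agent.Lib.MP_1a49c3_al.Dense2

set_option autoImplicit false

namespace Pool.Agent.Lib.MP_1a49c3_al

open Matrix Polynomial

variable {K : Type*} [Field K]

theorem map_T {S S' : Type*} [Ring S] [Ring S'] (f : S →+* S') (x z y₂ y₃ w : S) :
    f (T x z y₂ y₃ w) = T (f x) (f z) (f y₂) (f y₃) (f w) := by
  simp only [T, map_F, map_sub, map_mul]

section homog
variable {S : Type*} [Ring S] [Algebra K S] (M : Submodule K S)

theorem mul_mem_pow {a b n : ℕ} (h : a + b = n) {p q : S} (hp : p ∈ M ^ a) (hq : q ∈ M ^ b) :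
    p * q ∈ M ^ n := by
  rw [← h, pow_add]
  exact Submodule.mul_mem_mul hp hq

theorem comm_mem_pow {a b n : ℕ} (h : a + b = n) {p q : S} (hp : p ∈ M ^ a) (hq : q ∈ M ^ b) :
    p * q - q * p ∈ M ^ n :=
  Submodule.sub_mem _ (mul_mem_pow M h hp hq) (mul_mem_pow M (by omega) hq hp)

theorem G_mem {a b c n : ℕ} (h : a + b + c + 6 = n) {x y₁ y₂ y₃ : S} (hx : x ∈ M ^ 1)
    (h₁ : y₁ ∈ M ^ a) (h₂ : y₂ ∈ M ^ b) (h₃ : y₃ ∈ M ^ c) : G x y₁ y₂ y₃ ∈ M ^ n := by
  have k1 : x * y₁ - y₁ * x ∈ M ^ (a + 1) := comm_mem_pow M (by omega) hx h₁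
  have k2 : x * y₂ - y₂ * x ∈ M ^ (b + 1) := comm_mem_pow M (by omega) hx h₂
  have k2' : x * (x * y₂ - y₂ * x) - (x * y₂ - y₂ * x) * x ∈ M ^ (b + 2) :=
    comm_mem_pow M (by omega) hx k2
  have k3 : x * y₃ - y₃ * x ∈ M ^ (c + 1) := comm_mem_pow M (by omega) hx h₃
  rw [G]
  refine Submodule.add_mem _ (Submodule.sub_mem _ (Submodule.sub_mem _ ?_ ?_) ?_) ?_
  · exact mul_mem_pow M (a := a + b + c + 5) (by omega) (mul_mem_pow M (a := a + b + 4)
      (by omega) (mul_mem_pow M (a := a + 2) (by omega) (mul_mem_pow M (by omega) hx k1) k2') k3) hx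
  · exact mul_mem_pow M (a := a + b + 5) (by omega) (mul_mem_pow M (a := a + 3)
      (by omega) (mul_mem_pow M (a := a + 2) (by omega) (mul_mem_pow M (by omega) hx k1) hx) k2') k3
  · exact mul_mem_pow M (a := a + b + c + 5) (by omega) (mul_mem_pow M (a := a + b + 4)
      (by omega) (mul_mem_pow M (a := a + b + 3) (by omega) (mul_mem_pow M (by omega) k1 k2') hx)
        k3) hx
  · exact mul_mem_pow M (a := a + b + 5) (by omega) (mul_mem_pow M (a := a + b + 4)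
      (by omega) (mul_mem_pow M (a := a + 2) (by omega) (mul_mem_pow M (by omega) k1 hx) k2') hx) k3

theorem F_mem {a b c n : ℕ} (h : a + b + c + 6 = n) {x y₁ y₂ y₃ : S} (hx : x ∈ M ^ 1)
    (h₁ : y₁ ∈ M ^ a) (h₂ : y₂ ∈ M ^ b) (h₃ : y₃ ∈ M ^ c) : F x y₁ y₂ y₃ ∈ M ^ n := by
  rw [F]
  exact Submodule.add_mem _ (Submodule.add_mem _ (G_mem M h hx h₁ h₂ h₃)
    (G_mem M (by omega) hx h₂ h₃ h₁)) (G_mem M (by omega) hx h₃ h₁ h₂)

theorem T_mem {a n : ℕ} (h : a + 9 = n) {x z y₂ y₃ w : S} (hx : x ∈ M ^ 1) (hz : z ∈ M ^ 1)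
    (h₂ : y₂ ∈ M ^ 1) (h₃ : y₃ ∈ M ^ 1) (hw : w ∈ M ^ a) : T x z y₂ y₃ w ∈ M ^ n := by
  rw [T]
  exact F_mem M (a := a + 1) (by omega) hx (comm_mem_pow M rfl hw hz) h₂ h₃

end homog

/-- The homogeneous polynomial of degree `15` in `8` variables whose closure is a quadric. -/
noncomputable def thePoly (k : K) : FreeAlgebra K (Fin 8) :=
  pk (fun m => k • m) (FreeAlgebra.ι K 0) (FreeAlgebra.ι K 1) (FreeAlgebra.ι K 2)
    (FreeAlgebra.ι K 3)
    ((FreeAlgebra.ι K 4 * FreeAlgebra.ι K 5 - FreeAlgebra.ι K 5 * FreeAlgebra.ι K 4)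
      + (FreeAlgebra.ι K 6 * FreeAlgebra.ι K 7 - FreeAlgebra.ι K 7 * FreeAlgebra.ι K 6))

theorem thePoly_homogeneous (k : K) : IsHomogeneous (thePoly k) 15 := by
  rw [IsHomogeneous, thePoly, pk]
  set M := Submodule.span K (Set.range (FreeAlgebra.ι K : Fin 8 → FreeAlgebra K (Fin 8))) with hM
  have hv : ∀ i : Fin 8, FreeAlgebra.ι K i ∈ M ^ 1 := by
    intro i
    rw [pow_one]
    exact Submodule.subset_span ⟨i, rfl⟩
  set q := (FreeAlgebra.ι K (4 : Fin 8) * FreeAlgebra.ι K 5 - FreeAlgebra.ι K 5 * FreeAlgebra.ι K 4)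
      + (FreeAlgebra.ι K 6 * FreeAlgebra.ι K 7 - FreeAlgebra.ι K 7 * FreeAlgebra.ι K 6) with hqdef
  have hq : q ∈ M ^ 2 := Submodule.add_mem _ (comm_mem_pow M rfl (hv 4) (hv 5))
    (comm_mem_pow M rfl (hv 6) (hv 7))
  have hq2 : q * q ∈ M ^ 4 := mul_mem_pow M rfl hq hq
  have hq3 : q * q * q ∈ M ^ 6 := mul_mem_pow M rfl hq2 hq
  refine Submodule.sub_mem _ ?_ (Submodule.smul_mem _ _ ?_)
  · exact mul_mem_pow M rfl hq2 (T_mem M (n := 11) rfl (hv 0) (hv 1) (hv 2) (hv 3) hq)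
  · exact T_mem M rfl (hv 0) (hv 1) (hv 2) (hv 3) hq3

theorem value_thePoly (k : K) (A : Fin 8 → Matrix (Fin 3) (Fin 3) K) :
    value (thePoly k) A = pk (fun m => k • m) (A 0) (A 1) (A 2) (A 3)
      ((A 4 * A 5 - A 5 * A 4) + (A 6 * A 7 - A 7 * A 6)) := by
  have h : ∀ x z y₂ y₃ w : FreeAlgebra K (Fin 8), FreeAlgebra.lift K A (T x z y₂ y₃ w) =
      T (FreeAlgebra.lift K A x) (FreeAlgebra.lift K A z) (FreeAlgebra.lift K A y₂)
        (FreeAlgebra.lift K A y₃) (FreeAlgebra.lift K A w) := by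
    intro x z y₂ y₃ w
    exact map_T (FreeAlgebra.lift K A).toRingHom x z y₂ y₃ w
  simp only [value, thePoly, pk, map_sub, map_smul, map_mul, h, map_add, FreeAlgebra.lift_ι_apply]

/-- The closure of the image of `thePoly k` is the quadric. -/
theorem closure_thePoly [IsAlgClosed K] (k c : K)
    (hc : (1 - k) * (1 - 3 * k) = c * (3 * k - 2) ^ 2) (hk : 3 * k - 2 ≠ 0) :
    zariskiClosure (image (thePoly k)) = quadric c := by
  apply Set.Subset.antisymm
  · intro A hA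
    rw [mem_quadric]
    let φ : MvPolynomial (Fin 3 × Fin 3) K :=
      (MvPolynomial.X (0, 0) * MvPolynomial.X (1, 1) - MvPolynomial.X (0, 1) * MvPolynomial.X (1, 0))
      + (MvPolynomial.X (0, 0) * MvPolynomial.X (2, 2)
        - MvPolynomial.X (0, 2) * MvPolynomial.X (2, 0))
      + (MvPolynomial.X (1, 1) * MvPolynomial.X (2, 2)
        - MvPolynomial.X (1, 2) * MvPolynomial.X (2, 1))
      - MvPolynomial.C c * (MvPolynomial.X (0, 0) + MvPolynomial.X (1, 1)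
        + MvPolynomial.X (2, 2)) ^ 2
    have hφ : ∀ B : Matrix (Fin 3) (Fin 3) K,
        MvPolynomial.eval (fun ij : Fin 3 × Fin 3 => B ij.1 ij.2) φ =
          e2 B - c * B.trace ^ 2 := by
      intro B
      simp [φ, e2, Matrix.trace_fin_three]
    have := hA φ (by
      rintro _ ⟨v, rfl⟩
      rw [hφ, sub_eq_zero, value_thePoly]
      set q := (v 4 * v 5 - v 5 * v 4) + (v 6 * v 7 - v 7 * v 6) with hq
      have hqtr : q.trace = 0 := by
        rw [hq, Matrix.trace_add, Matrix.trace_sub, Matrix.trace_sub, Matrix.trace_mul_comm (v 4),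
          Matrix.trace_mul_comm (v 6)]
        simp
      have hT : T (v 0) (v 1) (v 2) (v 3) q = (F (v 0) (q * v 1 - v 1 * q) (v 2) (v 3) 0 0) •
          (1 : Matrix (Fin 3) (Fin 3) K) := F_central _ _ _ _
      rw [pk_value k _ _ _ _ q _ hT hqtr]
      exact value_mem_quadric k c hc _ _ hqtr)
    rw [hφ, sub_eq_zero] at this
    exact this
  · intro A hA φ hφ
    rw [mem_quadric] at hA
    refine step3 c φ ?_ A hA
    intro B hB h10
    refine step2 k c hc hk φ ?_ B hB h10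
    intro X z y₂ y₃ v₀ v₁ v₂ v₃
    refine hφ _ ⟨![X, z, y₂, y₃, v₀, v₁, v₂, v₃], ?_⟩
    rw [value_thePoly]
    rfl

/-- Existence of the parameter. -/
theorem exists_parameter [IsAlgClosed K] (c : K) (h3 : 3 * c ≠ 1) :
    ∃ k : K, (1 - k) * (1 - 3 * k) = c * (3 * k - 2) ^ 2 ∧ 3 * k - 2 ≠ 0 := by
  have hδ : (1 - 3 * c) ≠ 0 := sub_ne_zero.2 (Ne.symm h3)
  -- the polynomial 3 δ X² - 4 δ X + (1 - 4 c)
  have hdeg : (C (3 * (1 - 3 * c)) * X ^ 2 + C (-4 * (1 - 3 * c)) * X + C (1 - 4 * c) : K[X]).degree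
      ≠ 0 := by
    by_cases h : (3 : K) = 0
    · have h4 : (-4 * (1 - 3 * c)) ≠ 0 := by
        have : (-4 : K) = -1 := by linear_combination -h
        rw [this, neg_one_mul]
        exact neg_ne_zero.2 hδ
      rw [h]
      simp only [zero_mul, C_0, zero_add]
      have : (0 : K) * c = 0 := zero_mul c
      rw [h] at h4
      simp only [zero_mul] at h4
      rw [degree_linear h4]
      decide
    · have h3' : 3 * (1 - 3 * c) ≠ 0 := mul_ne_zero h hδ
      rw [degree_quadratic h3']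
      decide
  obtain ⟨k, hk⟩ := IsAlgClosed.exists_root _ hdeg
  simp only [IsRoot, eval_add, eval_mul, eval_C, eval_pow, eval_X] at hk
  have hc : (1 - k) * (1 - 3 * k) = c * (3 * k - 2) ^ 2 := by linear_combination hk
  refine ⟨k, hc, ?_⟩
  intro h
  rw [h] at hc
  have h3k : 3 * k = 2 := sub_eq_zero.1 h
  rw [h3k] at hc
  have hk1 : k = 1 := by linear_combination hc
  rw [hk1] at h
  apply one_ne_zero (α := K)
  linear_combination h

end Pool.Agent.Lib.MP_1a49c3_al
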